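import Mathlib
import Pool.Agent.V1181.HeatCost

/-!
# A lower bound for the cost of approximate boundary tracking
-/

set_option autoImplicit false

namespace Pool.Agent.Results.MP_93c926_an.LowerBound

open Pool.Agent.V1181.HeatCost
open Set Filter Topology
open scoped ENNReal

noncomputable section

theorem neg_sol {L T : ℝ} {v : ℝ → ℝ} {y : ℝ → ℝ → ℝ} (h : IsSol L T v y) :
    IsSol L T (fun t => -v t) (fun t x => -y t x) where
  bounded := by
    obtain ⟨M, hM⟩ := h.bounded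
    exact ⟨M, fun t ht x hx => by rw [abs_neg]; exact hM t ht x hx⟩
  cont := h.cont.neg
  pde := by
    intro t ht x hx
    obtain ⟨a, h1, h2, h3⟩ := h.pde t ht x hx
    refine ⟨-a, h1.neg, ?_, ?_⟩
    · filter_upwards [h2] with z hz
      exact hz.neg
    · have : deriv (fun x => -y t x) = fun x => -deriv (y t) x := by
        funext z
        exact deriv.fun_neg
      rw [this]
      exact h3.neg
  init := fun x hx => by rw [h.init x hx, neg_zero]
  left := fun t ht => by rw [h.left t ht, neg_zero]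
  right := fun t ht => by rw [h.right t ht]

/-- The explicit comparison solution. -/
def zz (M p L t x : ℝ) : ℝ := M * Real.exp (p ^ 2 * t) * (Real.sinh (p * x) / Real.sinh (p * L))

theorem zz_t (M p L t x : ℝ) :
    HasDerivAt (fun s => zz M p L s x) (p ^ 2 * zz M p L t x) t := by
  unfold zz
  have h1 : HasDerivAt (fun s : ℝ => p ^ 2 * s) (p ^ 2) t := by
    simpa using (hasDerivAt_id t).const_mul (p ^ 2)
  have h2 := (h1.exp.const_mul M).mul_const (Real.sinh (p * x) / Real.sinh (p * L))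
  refine h2.congr_deriv ?_
  ring

theorem zz_x (M p L t x : ℝ) :
    HasDerivAt (fun z => zz M p L t z)
      (M * Real.exp (p ^ 2 * t) * (p * Real.cosh (p * x) / Real.sinh (p * L))) x := by
  unfold zz
  have h1 : HasDerivAt (fun s : ℝ => p * s) p x := by
    simpa using (hasDerivAt_id x).const_mul p
  have h2 := (h1.sinh.div_const (Real.sinh (p * L))).const_mul (M * Real.exp (p ^ 2 * t))
  refine h2.congr_deriv ?_
  ring

theorem zz_xx (M p L t x : ℝ) :
    HasDerivAt (fun z => M * Real.exp (p ^ 2 * t) * (p * Real.cosh (p * z) / Real.sinh (p * L)))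
      (p ^ 2 * zz M p L t x) x := by
  unfold zz
  have h1 : HasDerivAt (fun s : ℝ => p * s) p x := by
    simpa using (hasDerivAt_id x).const_mul p
  have h2 := ((h1.cosh.const_mul p).div_const (Real.sinh (p * L))).const_mul
    (M * Real.exp (p ^ 2 * t))
  refine h2.congr_deriv ?_
  ring

theorem zz_cont (M p L : ℝ) : Continuous (fun q : ℝ × ℝ => zz M p L q.1 q.2) := by
  unfold zz
  have h1 : Continuous fun q : ℝ × ℝ => Real.sinh (p * q.2) :=
    Real.continuous_sinh.comp (by fun_prop)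
  exact (by fun_prop : Continuous fun q : ℝ × ℝ => M * Real.exp (p ^ 2 * q.1)).mul
    (h1.div_const _)

theorem upper {L T M p : ℝ} (hL : 0 < L) (hp : 0 < p) (hM : 0 ≤ M) {v : ℝ → ℝ}
    {y : ℝ → ℝ → ℝ} (h : IsSol L T v y) (hv : ∀ t ∈ Icc 0 T, v t ≤ M) {t x : ℝ}
    (ht : t ∈ Ioo 0 T) (hx : x ∈ Ioo 0 L) : y t x ≤ zz M p L t x := by
  have hsL : 0 < Real.sinh (p * L) := Real.sinh_pos_iff.mpr (by positivity)
  have hz0 : ∀ t x : ℝ, 0 ≤ x → 0 ≤ zz M p L t x := by
    intro t x hx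
    have : 0 ≤ Real.sinh (p * x) := Real.sinh_nonneg_iff.mpr (by positivity)
    unfold zz
    positivity
  obtain ⟨M', hM'⟩ := h.bounded
  have key := comparison (L := L) (T := T) hL (D := fun t x => zz M p L t x - y t x) (B := M')
    ?_ ?_ ?_ ?_ ?_ ?_ ht hx
  · linarith
  · intro s hs z hz
    have h1 := hM' s hs z hz
    have h2 := hz0 s z hz.1
    have h3 := (abs_le.mp h1).2
    show -M' ≤ zz M p L s z - y s z
    linarith
  · exact (zz_cont M p L).continuousOn.sub h.cont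
  · intro s hs z hz
    obtain ⟨a, h1, h2, h3⟩ := h.pde s hs z hz
    refine ⟨p ^ 2 * zz M p L s z - a, (zz_t M p L s z).sub h1, ?_, ?_⟩
    · filter_upwards [h2] with q hq
      exact (zz_x M p L s q).differentiableAt.sub hq
    · have h4 : deriv (fun x => zz M p L s x - y s x) =ᶠ[𝓝 z] fun q =>
          M * Real.exp (p ^ 2 * s) * (p * Real.cosh (p * q) / Real.sinh (p * L))
            - deriv (y s) q := by
        filter_upwards [h2] with q hq
        exact ((zz_x M p L s q).sub hq.hasDerivAt).deriv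
      exact ((zz_xx M p L s z).sub h3).congr_of_eventuallyEq h4
  · intro z hz
    show 0 ≤ zz M p L 0 z - y 0 z
    rw [h.init z hz, sub_zero]
    exact hz0 0 z hz.1
  · intro s hs
    show 0 ≤ zz M p L s 0 - y s 0
    rw [h.left s hs, sub_zero]
    exact hz0 s 0 le_rfl
  · intro s hs
    show 0 ≤ zz M p L s L - y s L
    rw [h.right s hs]
    have h1 : zz M p L s L = M * Real.exp (p ^ 2 * s) := by
      unfold zz
      rw [div_self hsL.ne', mul_one]
    have h2 : 1 ≤ Real.exp (p ^ 2 * s) := Real.one_le_exp (by have := hs.1; positivity)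
    have h3 := hv s ⟨hs.1.le, hs.2⟩
    rw [h1]
    nlinarith

theorem flux_le {L T M p : ℝ} (hL : 0 < L) (hp : 0 < p) (hM : 0 ≤ M) {v : ℝ → ℝ}
    {y : ℝ → ℝ → ℝ} (h : IsSol L T v y) (hv : ∀ t ∈ Icc 0 T, v t ≤ M) {t φ : ℝ}
    (ht : t ∈ Ioo 0 T) (hφ : HasDerivWithinAt (y t) φ (Ici 0) 0) :
    φ ≤ M * Real.exp (p ^ 2 * t) * (p / Real.sinh (p * L)) := by
  have h1 : HasDerivWithinAt (fun x => zz M p L t x - y t x)
      (M * Real.exp (p ^ 2 * t) * (p * Real.cosh (p * 0) / Real.sinh (p * L)) - φ) (Ici 0) 0 :=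
    (zz_x M p L t 0).hasDerivWithinAt.sub hφ
  rw [mul_zero, Real.cosh_zero, mul_one] at h1
  have h2 := (hasDerivWithinAt_iff_tendsto_slope.mp h1)
  have h3 : (0 : ℝ) ≤ M * Real.exp (p ^ 2 * t) * (p / Real.sinh (p * L)) - φ := by
    have hne : (Ici (0 : ℝ) \ {0}) = Ioi 0 := by
      ext z; simp [lt_iff_le_and_ne, eq_comm]
    rw [hne] at h2
    refine ge_of_tendsto h2 ?_
    have hLm : ∀ᶠ z in 𝓝[>] (0 : ℝ), z < L :=
      (gt_mem_nhds hL).filter_mono nhdsWithin_le_nhds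
    filter_upwards [self_mem_nhdsWithin, hLm] with z hz hzL
    have hz' : 0 < z := hz
    have h4 := upper hL hp hM h hv ht ⟨hz', hzL⟩
    have h5 : zz M p L t 0 = 0 := by unfold zz; simp
    have h6 : y t 0 = 0 := h.left t ⟨ht.1.le, ht.2.le⟩
    rw [slope_def_field, h5, h6]
    exact div_nonneg (by linarith) (by linarith)
  linarith

theorem exp_lower {L T ε M : ℝ} (hL : 0 < L) (hε : 0 < ε) (hεT : 2 * ε < T)
    (hεL : 2 * ε ≤ L ^ 2) (hM : 0 ≤ M) {v : ℝ → ℝ}
    (hv : ∀ t ∈ Icc 0 T, |v t| ≤ M) (h : Achieves L T (fun t => t) ε v) :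
    ε ^ 2 / L * Real.exp (L ^ 2 / (8 * ε)) ≤ M := by
  obtain ⟨y, φ, hy, hφ, -, herr⟩ := h
  have ht : 2 * ε ∈ Ioo 0 T := ⟨by linarith, hεT⟩
  have ht' : 2 * ε ∈ Icc 0 T := ⟨ht.1.le, ht.2.le⟩
  set p := L / (4 * ε) with hp
  have hp0 : 0 < p := by positivity
  have h1 := flux_le hL hp0 hM hy (fun t ht => (le_abs_self _).trans (hv t ht)) ht (hφ _ ht')
  have h2 : ε ≤ φ (2 * ε) := by
    have := (abs_le.mp (herr _ ht')).1
    linarith
  have e1 : p ^ 2 * (2 * ε) = L ^ 2 / (8 * ε) := by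
    rw [hp]; field_simp; ring
  have e2 : p * L = L ^ 2 / (4 * ε) := by
    rw [hp]; field_simp
  have hq : 1 / 2 ≤ L ^ 2 / (4 * ε) := by
    rw [div_le_div_iff₀ (by norm_num) (by positivity)]
    linarith
  have e3 : Real.exp (L ^ 2 / (4 * ε)) / 4 ≤ Real.sinh (p * L) := by
    rw [e2, Real.sinh_eq]
    have h3 : Real.exp (-(L ^ 2 / (4 * ε))) ≤ Real.exp (L ^ 2 / (4 * ε)) / 2 := by
      have h4 : Real.exp (-(L ^ 2 / (4 * ε))) * 2 ≤
          Real.exp (-(L ^ 2 / (4 * ε))) * Real.exp (2 * (L ^ 2 / (4 * ε))) := by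
        apply mul_le_mul_of_nonneg_left _ (Real.exp_pos _).le
        have := Real.add_one_le_exp (2 * (L ^ 2 / (4 * ε)))
        linarith
      rw [← Real.exp_add] at h4
      have h5 : -(L ^ 2 / (4 * ε)) + 2 * (L ^ 2 / (4 * ε)) = L ^ 2 / (4 * ε) := by ring
      rw [h5] at h4
      linarith
    linarith
  have e4 : Real.exp (L ^ 2 / (4 * ε)) = Real.exp (L ^ 2 / (8 * ε)) * Real.exp (L ^ 2 / (8 * ε)) := by
    rw [← Real.exp_add]
    congr 1
    field_simp
    norm_num
  have hE := Real.exp_pos (L ^ 2 / (8 * ε))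
  rw [e1] at h1
  rw [e4] at e3
  generalize Real.exp (L ^ 2 / (8 * ε)) = E at *
  have hs0 : 0 < Real.sinh (p * L) := by
    have : 0 < E * E / 4 := by positivity
    linarith
  generalize Real.sinh (p * L) = S at *
  have h3 : ε ≤ M * E * (p / S) := h2.trans h1
  have h4 : M * E * (p / S) ≤ M * E * (p / (E * E / 4)) := by
    gcongr
  have h5 : M * E * (p / (E * E / 4)) = M * L / (ε * E) := by
    rw [hp]; field_simp
  rw [h5] at h4
  have h6 : ε ≤ M * L / (ε * E) := h3.trans h4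
  rw [le_div_iff₀ (by positivity)] at h6
  rw [div_mul_eq_mul_div, div_le_iff₀ hL]
  nlinarith

/-- For the target `w(t) = t` the cost is at least `(ε²/L) exp (L²/(8ε))`. -/
theorem cost_ge {L T ε : ℝ} (hL : 0 < L) (hε : 0 < ε) (hεT : 2 * ε < T) (hεL : 2 * ε ≤ L ^ 2) :
    ENNReal.ofReal (ε ^ 2 / L * Real.exp (L ^ 2 / (8 * ε))) ≤ cost L T (fun t => t) ε := by
  unfold cost
  refine le_iInf fun v => le_iInf fun hv => le_iInf fun h => ?_
  obtain ⟨x, hx, hmax⟩ := isCompact_Icc.exists_isMaxOn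
    (nonempty_Icc.mpr (by linarith : (0 : ℝ) ≤ T)) (continuous_abs.comp_continuousOn hv)
  have h1 := exp_lower hL hε hεT hεL (abs_nonneg (v x)) (fun t ht => hmax ht) h
  refine (ENNReal.ofReal_le_ofReal h1).trans ?_
  unfold supNorm
  exact le_iSup₂ (f := fun t (_ : t ∈ Icc 0 T) => ENNReal.ofReal |v t|) x hx

/-- For all `L, T > 0` and the target `w(t) = t`: the cost of `ε`-approximate tracking is at least
`exp (c/ε)` for small `ε`; it is not `O(exp (C/√ε))`. -/
theorem result : ∀ L T : ℝ, 0 < L → 0 < T →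
    (∃ c > 0, ∃ ε₀ > 0, ∀ ε : ℝ, 0 < ε → ε < ε₀ →
      ENNReal.ofReal (Real.exp (c / ε)) ≤ cost L T (fun t => t) ε) ∧
    ∀ C : ℝ, 0 < C → ∃ ε > 0,
      ENNReal.ofReal (C * Real.exp (C * ε ^ (-(1 / 2) : ℝ))) < cost L T (fun t => t) ε := by
  intro L T hL hT
  have main : ∃ c > 0, ∃ ε₀ > 0, ∀ ε : ℝ, 0 < ε → ε < ε₀ →
      ENNReal.ofReal (Real.exp (c / ε)) ≤ cost L T (fun t => t) ε := by
    refine ⟨L ^ 2 / 16, by positivity, min (min (T / 2) (L ^ 2 / 2)) (L ^ 5 / 24576),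
      by positivity, ?_⟩
    intro ε hε hε0
    have h1 : 2 * ε < T := by
      have := hε0.trans_le ((min_le_left _ _).trans (min_le_left _ _)); linarith
    have h2 : 2 * ε ≤ L ^ 2 := by
      have := hε0.trans_le ((min_le_left _ _).trans (min_le_right _ _)); linarith
    have h3 : ε ≤ L ^ 5 / 24576 := by
      have := hε0.trans_le (min_le_right _ _); linarith
    refine (ENNReal.ofReal_le_ofReal ?_).trans (cost_ge hL hε h1 h2)
    have h4 : Real.exp (L ^ 2 / (8 * ε)) =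
        Real.exp (L ^ 2 / 16 / ε) * Real.exp (L ^ 2 / 16 / ε) := by
      rw [← Real.exp_add]
      congr 1
      field_simp
      norm_num
    rw [h4]
    have hx : 0 < L ^ 2 / 16 / ε := by positivity
    have h5 : (L ^ 2 / 16 / ε) ^ 3 / 6 ≤ Real.exp (L ^ 2 / 16 / ε) := by
      have := Real.pow_div_factorial_le_exp (L ^ 2 / 16 / ε) hx.le 3
      simpa [Nat.factorial] using this
    have h6 : 1 ≤ ε ^ 2 / L * Real.exp (L ^ 2 / 16 / ε) := by
      calc (1 : ℝ) ≤ ε ^ 2 / L * ((L ^ 2 / 16 / ε) ^ 3 / 6) := by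
            have : ε ^ 2 / L * ((L ^ 2 / 16 / ε) ^ 3 / 6) = L ^ 5 / 24576 / ε := by
              field_simp
              norm_num
            rw [this, le_div_iff₀ hε]
            linarith
        _ ≤ _ := mul_le_mul_of_nonneg_left h5 (by positivity)
    have hE := Real.exp_pos (L ^ 2 / 16 / ε)
    nlinarith
  refine ⟨main, ?_⟩
  intro C hC
  obtain ⟨c, hc, ε₀, hε₀, hmain⟩ := main
  obtain ⟨s, hs0, hs1, hs2, hs3⟩ : ∃ s : ℝ, 0 < s ∧ s < 1 ∧ s < ε₀ ∧ s < c / (2 * C) := by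
    refine ⟨min (min 1 ε₀) (c / (2 * C)) / 2, by positivity, ?_, ?_, ?_⟩
    all_goals
      have h0 : 0 < min (min 1 ε₀) (c / (2 * C)) := by positivity
      have h1 : min (min 1 ε₀) (c / (2 * C)) ≤ 1 := (min_le_left _ _).trans (min_le_left _ _)
      have h2 : min (min 1 ε₀) (c / (2 * C)) ≤ ε₀ := (min_le_left _ _).trans (min_le_right _ _)
      have h3 : min (min 1 ε₀) (c / (2 * C)) ≤ c / (2 * C) := min_le_right _ _
      linarith
  refine ⟨s ^ 2, by positivity, ?_⟩
  have h1 : s ^ 2 < ε₀ := by nlinarith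
  refine lt_of_lt_of_le ?_ (hmain (s ^ 2) (by positivity) h1)
  rw [ENNReal.ofReal_lt_ofReal_iff (Real.exp_pos _)]
  have h2 : (s ^ 2) ^ (-(1 / 2) : ℝ) = s⁻¹ := by
    rw [← Real.rpow_natCast, ← Real.rpow_mul hs0.le]
    norm_num
    exact Real.rpow_neg_one s
  rw [h2]
  have h3 : C ≤ Real.exp C := by
    have := Real.add_one_le_exp C; linarith
  have h4 : C * Real.exp (C * s⁻¹) ≤ Real.exp (C + C * s⁻¹) := by
    rw [Real.exp_add]
    exact mul_le_mul_of_nonneg_right h3 (Real.exp_pos _).le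
  refine h4.trans_lt (Real.exp_lt_exp.mpr ?_)
  have h5 : C * (2 * s) < c := by
    rw [lt_div_iff₀ (by positivity)] at hs3; linarith
  rw [lt_div_iff₀ (by positivity)]
  have h6 : (C + C * s⁻¹) * s ^ 2 = C * s ^ 2 + C * s := by
    field_simp
  rw [h6]
  nlinarith

end

end Pool.Agent.Results.MP_93c926_an.LowerBound
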