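import Mathlib
import Pool.Agent.V1181.HeatCost
import Pool.Agent.V1181.HeatMoll
import Pool.Agent.V1181.HeatSeries

/-!
# The cost of approximate boundary tracking is at most exponential in `1/ε`
-/

set_option autoImplicit false

namespace Pool.Agent.Results.MP_93c926_an.UpperBound

open Pool.Agent.V1181.HeatCost Pool.Agent.V1181.HeatMoll Pool.Agent.V1181.HeatSeries
open Set Filter Topology MeasureTheory
open scoped ENNReal NNReal

noncomputable section

/-- The derivatives of the mollified target. -/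
def f (ν b T : ℝ) (W : ℝ → ℝ) (i : ℕ) (t : ℝ) : ℝ := ∫ s in (0)..T, g ν b i (t - s) * W s

theorem f_hasDerivAt {ν b T A : ℝ} {W : ℝ → ℝ} (hb : 0 < b) (hW : Continuous W)
    (hA : ∀ s, |W s| ≤ A) (i : ℕ) (t : ℝ) :
    HasDerivAt (f ν b T W i) (f ν b T W (i + 1) t) t := by
  have hc : ∀ (j : ℕ) (t : ℝ), Continuous fun s => g ν b j (t - s) * W s := fun j t =>
    ((g_continuous hb j).comp (by fun_prop)).mul hW
  have h := intervalIntegral.hasDerivAt_integral_of_dominated_loc_of_deriv_le (μ := volume)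
    (a := 0) (b := T) (F := fun t s => g ν b i (t - s) * W s)
    (F' := fun t s => g ν b (i + 1) (t - s) * W s) (x₀ := t) (s := univ)
    (bound := fun _ => ((i + 1).factorial : ℝ) ^ 2 * (3 / b) ^ (i + 1) * A)
    univ_mem (Eventually.of_forall fun t => (hc i t).aestronglyMeasurable)
    ((hc i t).intervalIntegrable _ _) (hc (i + 1) t).aestronglyMeasurable ?_
    intervalIntegrable_const ?_
  · exact h.2
  · refine Eventually.of_forall fun s _ t _ => ?_
    rw [Real.norm_eq_abs, abs_mul]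
    gcongr
    · exact g_bound hb (i + 1) (t - s)
    · exact hA s
  · refine Eventually.of_forall fun s _ t _ => ?_
    have h1 := (g_hasDerivAt (ν := ν) hb i (t - s)).comp_sub_const t s
    exact h1.mul_const (W s)

theorem f_bd {ν b T A : ℝ} {W : ℝ → ℝ} (hb : 0 < b) (hT : 0 < T) (hA : ∀ s, |W s| ≤ A) (t : ℝ) :
    Bd (fun i => f ν b T W i t) (A * T) (3 / b) := by
  intro i
  have hA0 : 0 ≤ A := (abs_nonneg _).trans (hA 0)
  have h1 : ‖∫ s in (0)..T, g ν b i (t - s) * W s‖ ≤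
      (i.factorial : ℝ) ^ 2 * (3 / b) ^ i * A * |T - 0| := by
    refine intervalIntegral.norm_integral_le_of_norm_le_const fun s _ => ?_
    rw [Real.norm_eq_abs, abs_mul]
    gcongr
    · exact g_bound hb i (t - s)
    · exact hA s
  rw [Real.norm_eq_abs, sub_zero, abs_of_pos hT] at h1
  refine h1.trans ?_
  have h2 : (i.factorial : ℝ) ^ 2 ≤ (2 * i).factorial := by
    have h3 : i.factorial * i.factorial ≤ (i + i).factorial :=
      Nat.le_of_dvd (Nat.factorial_pos _) (Nat.factorial_mul_factorial_dvd_factorial_add i i)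
    rw [← two_mul] at h3
    have h4 : ((i.factorial * i.factorial : ℕ) : ℝ) ≤ ((2 * i).factorial : ℕ) := by
      exact_mod_cast h3
    push_cast at h4
    rw [sq]; exact h4
  have h3 : 0 ≤ (3 / b) ^ i * A * T := by positivity
  calc (i.factorial : ℝ) ^ 2 * (3 / b) ^ i * A * T = (i.factorial : ℝ) ^ 2 * ((3 / b) ^ i * A * T) := by
        ring
    _ ≤ (2 * i).factorial * ((3 / b) ^ i * A * T) := by gcongr
    _ = _ := by ring

theorem f_zero {ν b T : ℝ} {W : ℝ → ℝ} (hT : 0 < T) (i : ℕ) : f ν b T W i 0 = 0 := by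
  unfold f
  rw [intervalIntegral.integral_of_le hT.le]
  have h : ∀ s ∈ Ioc 0 T, g ν b i (0 - s) * W s = 0 := by
    intro s hs
    rw [g_nonpos (by linarith [hs.1]), zero_mul]
  rw [setIntegral_congr_fun measurableSet_Ioc h]
  simp

theorem f_zero_eq {ν b T : ℝ} {W : ℝ → ℝ} (hb : 0 < b) (hW : Continuous W)
    (hW0 : ∀ s, s ≤ 0 → W s = 0) {t : ℝ} (ht : t ∈ Icc 0 T) :
    f ν b T W 0 t = ∫ r in Ioi 0, g ν b 0 r * W (t - r) := by
  have hc : Continuous fun s => g ν b 0 (t - s) * W s :=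
    ((g_continuous hb 0).comp (by fun_prop)).mul hW
  unfold f
  rw [← intervalIntegral.integral_add_adjacent_intervals (b := t) (hc.intervalIntegrable _ _)
    (hc.intervalIntegrable _ _)]
  have h1 : ∫ s in t..T, g ν b 0 (t - s) * W s = 0 := by
    rw [intervalIntegral.integral_of_le ht.2]
    have h : ∀ s ∈ Ioc t T, g ν b 0 (t - s) * W s = 0 := by
      intro s hs
      rw [g_nonpos (by linarith [hs.1]), zero_mul]
    rw [setIntegral_congr_fun measurableSet_Ioc h]
    simp
  rw [h1, add_zero]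
  have h2 : ∫ s in (0)..t, g ν b 0 (t - s) * W s = ∫ r in (0)..t, g ν b 0 r * W (t - r) := by
    have := intervalIntegral.integral_comp_sub_left (a := 0) (b := t)
      (fun r => g ν b 0 r * W (t - r)) t
    simp only [sub_sub_cancel, sub_self, sub_zero] at this
    exact this
  rw [h2, intervalIntegral.integral_of_le ht.1]
  symm
  apply setIntegral_eq_of_subset_of_forall_sdiff_eq_zero measurableSet_Ioi Ioc_subset_Ioi_self
  rintro r ⟨hr1, hr2⟩
  have hr1' : 0 < r := hr1
  have : t < r := by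
    by_contra hcon
    exact hr2 ⟨hr1', not_lt.mp hcon⟩
  rw [hW0 _ (by linarith), mul_zero]

theorem flux_err {ν b T K : ℝ} {W : ℝ → ℝ} (hν : 2 ≤ ν) (hb : 0 < b) (hW : Continuous W)
    (hW0 : ∀ s, s ≤ 0 → W s = 0) (hK : ∀ s s', |W s - W s'| ≤ K * |s - s'|) (hK0 : 0 ≤ K)
    {t : ℝ} (ht : t ∈ Icc 0 T) :
    |(mom ν b 0)⁻¹ * f ν b T W 0 t - W t| ≤ K * ((b + 1) / ν) := by
  have hν0 : 0 < ν := by linarith
  have hi0 := integrable_mom hν0 hb 0
  have hi1 := integrable_mom hν0 hb 1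
  have hZ : 0 < mom ν b 0 := lt_of_lt_of_le (by positivity) (mom_zero_ge hν0 hb)
  have hI : IntegrableOn (fun r => g ν b 0 r * W (t - r)) (Ioi 0) := by
    have hb' : ∀ r ∈ Ioi (0 : ℝ), ‖g ν b 0 r * W (t - r)‖ ≤ K * (r ^ 1 * g ν b 0 r) +
        |W t| * (r ^ 0 * g ν b 0 r) := by
      intro r hr
      have hr' : 0 < r := hr
      rw [Real.norm_eq_abs, abs_mul, abs_of_nonneg g0_nonneg]
      have h1 : |W (t - r)| ≤ |W t| + K * r := by
        have h2 := hK (t - r) t
        rw [sub_sub_cancel_left, abs_neg, abs_of_pos hr'] at h2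
        have h3 := abs_sub_abs_le_abs_sub (W (t - r)) (W t)
        linarith
      have h4 := mul_le_mul_of_nonneg_left h1 (g0_nonneg (ν := ν) (b := b) (t := r))
      simp only [pow_one, pow_zero, one_mul]
      linarith
    refine Integrable.mono' ((hi1.const_mul K).add (hi0.const_mul |W t|)) ?_
      ((ae_restrict_iff' measurableSet_Ioi).mpr (Eventually.of_forall hb'))
    exact (((g_continuous hb 0)).mul (hW.comp (by fun_prop))).aestronglyMeasurable
  have e1 : f ν b T W 0 t - mom ν b 0 * W t =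
      ∫ r in Ioi 0, (g ν b 0 r * W (t - r) - W t * (r ^ 0 * g ν b 0 r)) := by
    rw [integral_sub hI (hi0.const_mul _), integral_const_mul, f_zero_eq hb hW hW0 ht]
    unfold mom
    ring
  have e2 : |f ν b T W 0 t - mom ν b 0 * W t| ≤ K * mom ν b 1 := by
    rw [e1, ← Real.norm_eq_abs]
    unfold mom
    rw [← integral_const_mul]
    refine norm_integral_le_of_norm_le (hi1.const_mul K) ?_
    refine (ae_restrict_iff' measurableSet_Ioi).mpr (Eventually.of_forall fun r hr => ?_)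
    have hr' : 0 < r := hr
    have h2 := hK (t - r) t
    rw [sub_sub_cancel_left, abs_neg, abs_of_pos hr'] at h2
    have e3 : g ν b 0 r * W (t - r) - W t * (r ^ 0 * g ν b 0 r)
        = g ν b 0 r * (W (t - r) - W t) := by ring
    rw [e3, Real.norm_eq_abs, abs_mul, abs_of_nonneg g0_nonneg]
    have h4 := mul_le_mul_of_nonneg_left h2 (g0_nonneg (ν := ν) (b := b) (t := r))
    simp only [pow_one]
    linarith
  have e3 : (mom ν b 0)⁻¹ * f ν b T W 0 t - W t
      = (mom ν b 0)⁻¹ * (f ν b T W 0 t - mom ν b 0 * W t) := by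
    field_simp
  rw [e3, abs_mul, abs_of_pos (by positivity : 0 < (mom ν b 0)⁻¹), inv_mul_le_iff₀ hZ]
  have h5 := mul_le_mul_of_nonneg_left (mom_one_le hν hb) hK0
  linarith

theorem main {L T K : ℝ} (hL : 0 < L) (hT : 0 < T) {w W : ℝ → ℝ} (hW : Continuous W)
    (hW0 : ∀ s, s ≤ 0 → W s = 0) (hWw : ∀ s ∈ Icc 0 T, W s = w s) (hK0 : 0 ≤ K)
    (hK : ∀ s s', |W s - W s'| ≤ K * |s - s'|) (hA : ∀ s, |W s| ≤ K * T)
    {ε : ℝ} (hε : 0 < ε) {b ν : ℝ} (hb : b = 48 * L ^ 2) (hν : ν = 2 + K * (b + 1) / ε) :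
    cost L T w ε ≤ ENNReal.ofReal (4 * (K * T * T) * L * Real.exp ((3 + b) * ν)) := by
  have hb0 : 0 < b := by rw [hb]; positivity
  have hν2 : 2 ≤ ν := by
    rw [hν]
    have : 0 ≤ K * (b + 1) / ε := by positivity
    linarith
  have hν0 : 0 < ν := by linarith
  set Z := mom ν b 0 with hZdef
  have hZ : 0 < Z := lt_of_lt_of_le (by positivity) (mom_zero_ge hν0 hb0)
  set F := f ν b T W with hF
  have hBd : ∀ t, Bd (fun i => F i t) (K * T * T) (3 / b) := fun t => f_bd hb0 hT hA t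
  have hd : ∀ i t, HasDerivAt (F i) (F (i + 1) t) t := fun i t => f_hasDerivAt hb0 hW hA i t
  have hA0 : 0 ≤ K * T * T := by positivity
  have hq : 0 ≤ 3 / b := by positivity
  have hRq : 4 * (2 * L) ^ 2 * (3 / b) ≤ 1 := by
    rw [hb]
    apply le_of_eq
    field_simp
    norm_num
  set y : ℝ → ℝ → ℝ := fun t x => Z⁻¹ * S1 (fun i => F i t) x with hy
  have hyx : ∀ t x, x ∈ Ioo (-(2 * L)) (2 * L) →
      HasDerivAt (y t) (Z⁻¹ * S0 (fun i => F i t) x) x := fun t x hx =>
    (S1_hasDerivAt (hBd t) hA0 hq hRq hx).const_mul _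
  have hyxx : ∀ t x, x ∈ Ioo (-(2 * L)) (2 * L) →
      HasDerivAt (deriv (y t)) (Z⁻¹ * S1 (fun i => F (i + 1) t) x) x := by
    intro t x hx
    have h1 : deriv (y t) =ᶠ[𝓝 x] fun z => Z⁻¹ * S0 (fun i => F i t) z := by
      filter_upwards [isOpen_Ioo.mem_nhds hx] with z hz
      exact (hyx t z hz).deriv
    exact ((S0_hasDerivAt (hBd t) hA0 hq hRq hx).const_mul _).congr_of_eventuallyEq h1
  have hyt : ∀ t x, |x| ≤ 2 * L → HasDerivAt (fun s => y s x)
      (Z⁻¹ * S1 (fun i => F (i + 1) t) x) t := fun t x hx =>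
    (S1_time hBd hA0 hq hRq hx hd t).const_mul _
  have hycont : ContinuousOn (fun p : ℝ × ℝ => y p.1 p.2) (univ ×ˢ Icc (-(2 * L)) (2 * L)) :=
    continuousOn_const.mul (S1_cont hBd hA0 hq hRq hd)
  have hybd : ∀ t x, |x| ≤ 2 * L → |y t x| ≤ Z⁻¹ * (2 * (K * T * T) * (2 * L)) := by
    intro t x hx
    rw [hy]
    simp only
    rw [abs_mul, abs_of_pos (by positivity : 0 < Z⁻¹)]
    exact mul_le_mul_of_nonneg_left (S1_abs_le (hBd t) hA0 hq hRq hx) (by positivity)
  have hin : ∀ x ∈ Icc 0 L, |x| ≤ 2 * L := by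
    intro x hx
    rw [abs_of_nonneg hx.1]
    linarith [hx.2]
  have hsol : IsSol L T (fun t => y t L) y := by
    refine ⟨⟨_, fun t _ x hx => hybd t x (hin x hx)⟩, ?_, ?_, ?_, ?_, ?_⟩
    · refine hycont.mono ?_
      rintro ⟨t, x⟩ ⟨⟨_, hx⟩, _⟩
      refine ⟨mem_univ _, ?_⟩
      have hx' : x ∈ Icc 0 L := hx
      exact ⟨by linarith [hx'.1], by linarith [hx'.2]⟩
    · intro t _ x hx
      have hx' : x ∈ Ioo (-(2 * L)) (2 * L) := ⟨by linarith [hx.1], by linarith [hx.2]⟩
      refine ⟨_, hyt t x (hin x ⟨hx.1.le, hx.2.le⟩), ?_, hyxx t x hx'⟩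
      filter_upwards [isOpen_Ioo.mem_nhds hx'] with z hz
      exact (hyx t z hz).differentiableAt
    · intro x _
      have : (fun i => F i 0) = fun _ => 0 := by
        funext i
        exact f_zero hT i
      show Z⁻¹ * S1 (fun i => F i 0) x = 0
      rw [this]
      simp [S1]
    · intro t _
      show Z⁻¹ * S1 (fun i => F i t) 0 = 0
      rw [S1_zero, mul_zero]
    · intro t _
      rfl
  have hach : Achieves L T w ε (fun t => y t L) := by
    refine ⟨y, fun t => Z⁻¹ * F 0 t, hsol, ?_, ?_, ?_⟩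
    · intro t _
      have h1 := hyx t 0 ⟨by linarith, by linarith⟩
      rw [S0_zero] at h1
      exact h1.hasDerivWithinAt
    · have : Continuous (F 0) :=
        continuous_iff_continuousAt.mpr fun t => (hd 0 t).continuousAt
      exact (continuous_const.mul this).continuousOn
    · intro t ht
      have h1 := flux_err hν2 hb0 hW hW0 hK hK0 ht
      rw [hWw t ht] at h1
      refine h1.trans ?_
      rw [← mul_div_assoc, div_le_iff₀ hν0]
      have h2 : ε * ν = 2 * ε + K * (b + 1) := by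
        rw [hν]; field_simp
      rw [h2]
      linarith
  have hvc : ContinuousOn (fun t => y t L) (Icc 0 T) := by
    intro t _
    exact (hyt t L (hin L ⟨hL.le, le_rfl⟩)).continuousAt.continuousWithinAt
  have hle : cost L T w ε ≤ supNorm T (fun t => y t L) :=
    iInf_le_of_le (fun t => y t L) (iInf_le_of_le hvc (iInf_le _ hach))
  refine hle.trans ?_
  unfold supNorm
  refine iSup₂_le fun t _ => ENNReal.ofReal_le_ofReal ?_
  refine (hybd t L (hin L ⟨hL.le, le_rfl⟩)).trans ?_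
  have h1 : Z⁻¹ ≤ Real.exp ((3 + b) * ν) := by
    have h2 := mom_zero_ge hν0 hb0
    rw [inv_le_comm₀ hZ (Real.exp_pos _), ← Real.exp_neg]
    refine le_trans ?_ h2
    have h3 : Real.exp (-((3 + b) * ν)) = Real.exp (-ν) * Real.exp (-((2 + b) * ν)) := by
      rw [← Real.exp_add]
      congr 1
      ring
    rw [h3]
    gcongr
    rw [Real.exp_neg, one_div]
    have := Real.add_one_le_exp ν
    gcongr
    linarith
  calc Z⁻¹ * (2 * (K * T * T) * (2 * L)) ≤ Real.exp ((3 + b) * ν) * (2 * (K * T * T) * (2 * L)) := by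
        gcongr
    _ = _ := by ring

/-- For all `L, T > 0` and every Lipschitz target `w` on `[0,T]` with `w 0 = 0` there is a constant
`C` such that the cost of `ε`-approximate tracking is at most `C exp (C / ε)` for all `ε > 0`. -/
theorem result : ∀ L T : ℝ, 0 < L → 0 < T → ∀ w : ℝ → ℝ,
    (∃ K : ℝ≥0, LipschitzOnWith K w (Icc 0 T)) → w 0 = 0 →
    ∃ C > 0, ∀ ε : ℝ, 0 < ε → cost L T w ε ≤ ENNReal.ofReal (C * Real.exp (C / ε)) := by
  rintro L T hL hT w ⟨K, hKw⟩ hw0
  set W : ℝ → ℝ := (Icc 0 T).domRestrict w ∘ projIcc 0 T hT.le with hWdef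
  have hLip : LipschitzWith (K * 1) W := hKw.to_restrict.comp (LipschitzWith.projIcc hT.le)
  rw [mul_one] at hLip
  have hW : Continuous W := hLip.continuous
  have hWw : ∀ s ∈ Icc 0 T, W s = w s := by
    intro s hs
    rw [hWdef, Function.comp_apply, projIcc_of_mem hT.le hs]
    rfl
  have hW0 : ∀ s, s ≤ 0 → W s = 0 := by
    intro s hs
    rw [hWdef, Function.comp_apply, projIcc_of_le_left hT.le hs]
    exact hw0
  have hK : ∀ s s', |W s - W s'| ≤ (K : ℝ) * |s - s'| := by
    intro s s'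
    have := hLip.dist_le_mul s s'
    rwa [Real.dist_eq, Real.dist_eq] at this
  have hA : ∀ s, |W s| ≤ (K : ℝ) * T := by
    intro s
    have h1 : W s = w (projIcc 0 T hT.le s) := rfl
    have h2 := hKw.dist_le_mul _ (projIcc 0 T hT.le s).2 0 ⟨le_rfl, hT.le⟩
    rw [hw0, dist_zero_right, dist_zero_right, Real.norm_eq_abs, Real.norm_eq_abs] at h2
    rw [h1]
    refine h2.trans ?_
    have h3 := (projIcc 0 T hT.le s).2
    rw [abs_of_nonneg h3.1]
    exact mul_le_mul_of_nonneg_left h3.2 K.2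
  have hK0 : (0 : ℝ) ≤ K := K.2
  set b := 48 * L ^ 2 with hb
  have hb0 : 0 < b := by positivity
  set C1 := 4 * ((K : ℝ) * T * T) * L * Real.exp ((3 + b) * 2) with hC1
  set C2 := (3 + b) * ((K : ℝ) * (b + 1)) with hC2
  have hC10 : 0 ≤ C1 := by positivity
  have hC20 : 0 ≤ C2 := by positivity
  refine ⟨C1 + C2 + 1, by positivity, fun ε hε => ?_⟩
  refine (main hL hT hW hW0 hWw hK0 hK hA hε hb rfl).trans (ENNReal.ofReal_le_ofReal ?_)
  have e1 : (3 + b) * (2 + (K : ℝ) * (b + 1) / ε) = (3 + b) * 2 + C2 / ε := by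
    rw [hC2]; ring
  rw [e1, Real.exp_add, ← mul_assoc, ← hC1]
  have h1 : Real.exp (C2 / ε) ≤ Real.exp ((C1 + C2 + 1) / ε) := by
    apply Real.exp_le_exp.mpr
    gcongr
    linarith
  have h2 := Real.exp_pos ((C1 + C2 + 1) / ε)
  calc C1 * Real.exp (C2 / ε) ≤ C1 * Real.exp ((C1 + C2 + 1) / ε) := by gcongr
    _ ≤ (C1 + C2 + 1) * Real.exp ((C1 + C2 + 1) / ε) := by
        gcongr
        linarith

end

end Pool.Agent.Results.MP_93c926_an.UpperBound
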